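import Mathlib
import Pool.Agent.R78.S3.Mw

/-!
# The parity conjecture for `y² + y = x³` over pure cubic fields and their Galois closures

`E` is the curve `y² + y = x³` and `N` runs over all cube-free numbers, prime to `3` and not `±1`
modulo `9`, which are divisible by exactly one prime `2` modulo `3` (and by any number of primes `1`
modulo `3`).  `k` is the pure cubic field `ℚ(∛N)` or its Galois closure `ℚ(∛N, √-3)`, of degree `6`.

* `L(E/k, s)` is continued to an entire function for all these `N`.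
* If `N` does not split (a condition on cubic residues between the prime factors of `N`), then the
  parity conjecture holds for `E/k`, both sides being `+1`, in the strong form: `L(E/k, 1) ≠ 0`, so
  that the order at `1` is `0` and the sign of every functional equation is `+1`, and `E(k)` is finite
  (moreover `3` kills the `3`-primary part of `Ш(E/k)`).
* This is the case for at least the proportion `∏_{i ≥ 1} (1 - 3^{-i}) - ε` of the `N`, for every
  `ε > 0`, and the product is greater than `0.56`.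

The fields `ℚ(∛N)` are not Galois over `ℚ`, have one real and one complex place, and do not contain the
field of complex multiplication of `E`.

The work over the fields `ℚ(∛N)` for cube-free `N` is by helper419 (`Pool/Agent/R419/CF` and
`Pool/Agent/R419/CE`), on top of the joint work on squarefree `N` (`Pool/Agent/Y703/CT`,
`Pool/Agent/Y703/CX`, `Pool/Agent/Y696`); the Galois closures and the signs are by helper78
(`Pool/Agent/R78/S3`).
-/

set_option autoImplicit false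

open scoped Classical

namespace Pool.Agent.Results.MP_02f36d_nt.PureCubicParity

open NumberField WeierstrassCurve Module
open Pool.Agent.TH841.NF.D (Sha)

/-- The curve `E : y² + y = x³` over `k`. -/
def curve (k : Type) [Field k] : WeierstrassCurve k := ⟨0, 0, 1, 0, 0⟩

/-- `L` is the L-function `L(E/k, s)`: it is entire and equal to the L-series for `Re s > 3/2`. -/
def IsL (k : Type) [Field k] [NumberField k] (L : ℂ → ℂ) : Prop :=
  Differentiable ℂ L ∧ ∀ s : ℂ, 3 / 2 < s.re →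
    LSeriesSummable ((fun n : ℤ => (n : ℂ)) ∘ (curve k).LFunction) s ∧ L s = (curve k).LSeries s

/-- The completed L-function `C^(s/2) ((2π)^(-s) Γ(s))^[k : ℚ] L(s)`. -/
noncomputable def Lambda (k : Type) [Field k] [NumberField k] (C : ℝ) (L : ℂ → ℂ) (s : ℂ) : ℂ :=
  (C : ℂ) ^ (s / 2) * ((2 * Real.pi : ℂ) ^ (-s) * Complex.Gamma s) ^ finrank ℚ k * L s

/-- `w` is the sign of a functional equation `Λ(s) = w Λ(2 - s)`, in the critical strip, for some
positive real number `C`. -/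
def IsSign (k : Type) [Field k] [NumberField k] (L : ℂ → ℂ) (w : ℂ) : Prop :=
  ∃ C : ℝ, 0 < C ∧ ∀ s : ℂ, 0 < s.re → s.re < 2 → Lambda k C L s = w * Lambda k C L (2 - s)

/-- The rank of `E(k)`. -/
noncomputable def rank (k : Type) [Field k] : ℕ := finrank ℤ (curve k).toAffine.Point

/-- The parity conjecture for `E/k`: the L-function exists, its order at `1` is finite and has the
parity of the rank, and each sign `w` of a functional equation is `(-1) ^ rank`. -/
def Parity (k : Type) [Field k] [NumberField k] : Prop :=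
  (∃ L : ℂ → ℂ, IsL k L) ∧ ∀ L : ℂ → ℂ, IsL k L →
    (∃ r : ℕ, analyticOrderAt L 1 = r ∧ (Even r ↔ Even (rank k))) ∧
    ∀ w : ℂ, IsSign k L w → w = (-1) ^ rank k

/-- `L(E/k, 1) ≠ 0`, `E(k)` is finite, and every element of the `3`-primary part of `Ш(E/k)` is killed
by `3`. -/
def BothZero (k : Type) [Field k] [NumberField k] : Prop :=
  (∀ L : ℂ → ℂ, IsL k L → L 1 ≠ 0) ∧ Finite (curve k).toAffine.Point ∧
  ∀ (n : ℕ) (x : Sha (curve k)), 3 ^ n • x = 0 → 3 • x = 0

/-- `N` is not zero, not divisible by the cube of a prime, not divisible by `3`, not `±1` modulo `9`,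
and divisible by exactly one prime that is `2` modulo `3`. -/
def InClass (N : ℕ) : Prop :=
  N ≠ 0 ∧ (∀ p : ℕ, p.Prime → ¬ p ^ 3 ∣ N) ∧ ¬ 3 ∣ N ∧ N % 9 ≠ 1 ∧ N % 9 ≠ 8 ∧
    ∃ q : ℕ, q.Prime ∧ q % 3 = 2 ∧ q ∣ N ∧ ∀ p : ℕ, p.Prime → p ∣ N → p ≠ q → p % 3 = 1

/-- In every factorization of `N` in coprime factors `d₀ d₁ d₂` for which `d₁ d₂²`, `d₂ d₀²`,
`d₀ d₁²` are cubes modulo the primes dividing `d₀`, `d₁`, `d₂` respectively, two factors are `1`. -/
def HasNoSplitting (N : ℕ) : Prop :=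
  ∀ d : ZMod 3 → ℕ, ∏ c, d c = N → (∀ c c', c ≠ c' → Nat.Coprime (d c) (d c')) →
    (∀ (c : ZMod 3) (p : ℕ), p.Prime → p ∣ d c →
      ∃ x : ℤ, (p : ℤ) ∣ (d (c + 1) : ℤ) * (d (c + 2) : ℤ) ^ 2 - x ^ 3) →
    ∃ c, ∀ c', c' ≠ c → d c' = 1

/-- `k` is `ℚ(∛N)`, or `ℚ(∛N, √-3)` (a Galois extension of `ℚ` of degree `6` with a cube root `θ` of
`N`). -/
def IsField (N : ℕ) (k : Type) [Field k] [NumberField k] (θ : k) : Prop :=
  θ ^ 3 = (N : k) ∧ (finrank ℚ k = 3 ∨ (finrank ℚ k = 6 ∧ IsGalois ℚ k))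

/-- The parity conjecture, with both sides `+1`, over all the fields `ℚ(∛N)` and `ℚ(∛N, √-3)`. -/
def ParityOver (N : ℕ) : Prop :=
  ∀ (k : Type) [Field k] [NumberField k] (θ : k), IsField N k θ → Parity k ∧ BothZero k

theorem class_iff (N : ℕ) : InClass N ↔ Pool.Agent.Y703.CT.Cls N := by
  unfold InClass Pool.Agent.Y703.CT.Cls Pool.Agent.Y703.CT.Base
  constructor
  · rintro ⟨h1, h2, h3, h4, h5, h6⟩
    exact ⟨⟨h1, h3, h2⟩, h4, h5, h6⟩
  · rintro ⟨⟨h1, h3, h2⟩, h4, h5, h6⟩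
    exact ⟨h1, h2, h3, h4, h5, h6⟩

theorem law {N : ℕ} (hN : InClass N) (k : Type) [Field k] [NumberField k] (θ : k)
    (h : IsField N k θ) : Pool.Agent.Y696.CTE.LawE k (HasNoSplitting N) := by
  have hC := (class_iff N).1 hN
  obtain ⟨h1, h2 | ⟨h2, h3⟩⟩ := h
  · exact Pool.Agent.R419.CE.law_all hC k θ h2 h1
  · exact Pool.Agent.R78.S3.law_gal ⟨h3, h2, h1⟩ hC

theorem exists_L {N : ℕ} (hN : InClass N) (k : Type) [Field k] [NumberField k] (θ : k)
    (h : IsField N k θ) : ∃ L : ℂ → ℂ, IsL k L := by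
  obtain ⟨L, h1, h2, -⟩ := law hN k θ h
  exact ⟨L, h1, h2⟩

theorem isL_unique {k : Type} [Field k] [NumberField k] {L M : ℂ → ℂ} (hL : IsL k L)
    (hM : IsL k M) : L = M := by
  have h1 : AnalyticOnNhd ℂ L Set.univ := fun z _ => hL.1.analyticAt z
  have h2 : AnalyticOnNhd ℂ M Set.univ := fun z _ => hM.1.analyticAt z
  refine h1.eq_of_eventuallyEq h2 (z₀ := 2) ?_
  have h3 : {s : ℂ | 3 / 2 < s.re} ∈ nhds (2 : ℂ) :=
    (isOpen_lt continuous_const Complex.continuous_re).mem_nhds (by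
      show (3 : ℝ) / 2 < (2 : ℂ).re
      norm_num)
  filter_upwards [h3] with s hs
  rw [(hL.2 s hs).2, (hM.2 s hs).2]

theorem sign_one {k : Type} [Field k] [NumberField k] {L : ℂ → ℂ} (h : L 1 ≠ 0) {w : ℂ}
    (hw : IsSign k L w) : w = 1 := by
  obtain ⟨C, hC, h1⟩ := hw
  have h2 := h1 1 (by norm_num) (by norm_num)
  have e : (2 : ℂ) - 1 = 1 := by norm_num
  rw [e] at h2
  have h3 : Lambda k C L 1 ≠ 0 := by
    refine mul_ne_zero (mul_ne_zero ?_ (pow_ne_zero _ (mul_ne_zero ?_ ?_))) h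
    · have : (C : ℂ) ≠ 0 := by exact_mod_cast hC.ne'
      exact (Complex.cpow_ne_zero_iff.2 (Or.inl this))
    · have : (2 * Real.pi : ℂ) ≠ 0 := by
        have := Real.pi_ne_zero
        exact_mod_cast mul_ne_zero two_ne_zero this
      exact (Complex.cpow_ne_zero_iff.2 (Or.inl this))
    · apply Complex.Gamma_ne_zero_of_re_pos
      norm_num
  have h4 : (w - 1) * Lambda k C L 1 = 0 := by linear_combination -h2
  exact sub_eq_zero.1 ((mul_eq_zero.1 h4).resolve_right h3)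

theorem parity_of {N : ℕ} (hN : InClass N) (hs : HasNoSplitting N) : ParityOver N := by
  intro k _ _ θ h
  obtain ⟨L, h1, h2, h3⟩ := law hN k θ h
  obtain ⟨h4, h5, h6⟩ := h3 hs
  have hL : IsL k L := ⟨h1, h2⟩
  have hne : ∀ M : ℂ → ℂ, IsL k M → M 1 ≠ 0 := fun M hM => by
    rw [isL_unique hM hL]
    exact h4
  have hr : rank k = 0 := Pool.Agent.Y687.finrank_zero_of_finite h5
  refine ⟨⟨⟨L, hL⟩, fun M hM => ⟨⟨0, ?_, by rw [hr]⟩, fun w hw => ?_⟩⟩, hne, h5, h6⟩
  · rw [Nat.cast_zero]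
    exact (hM.1.analyticAt _).analyticOrderAt_eq_zero.2 (hne M hM)
  · rw [hr, pow_zero]
    exact sign_one (hne M hM) hw

theorem result :
    (∃ c : ℝ, 0 < c ∧ ∃ X₀ : ℕ, ∀ X : ℕ, X₀ ≤ X →
      c * X / Real.sqrt (Real.log X) ≤ (((Finset.Icc 1 X).filter fun N => InClass N).card : ℝ)) ∧
    (∀ N : ℕ, InClass N →
      (∃ (k : Type) (_ : Field k) (_ : NumberField k) (θ : k), IsField N k θ ∧ finrank ℚ k = 3) ∧
      (∃ (k : Type) (_ : Field k) (_ : NumberField k) (θ : k), IsField N k θ ∧ finrank ℚ k = 6) ∧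
      (∀ (k : Type) [Field k] [NumberField k] (θ : k), IsField N k θ → ∃ L : ℂ → ℂ, IsL k L) ∧
      (HasNoSplitting N → ParityOver N)) ∧
    (0.56 : ℝ) < ∏' i : ℕ, (1 - (1 / 3 : ℝ) ^ (i + 1)) ∧
    ∀ ε : ℝ, 0 < ε → ∃ X₀ : ℕ, ∀ X : ℕ, X₀ ≤ X →
      ((∏' i : ℕ, (1 - (1 / 3 : ℝ) ^ (i + 1))) - ε) *
          (((Finset.Icc 1 X).filter fun N => InClass N).card : ℝ) ≤
        (((Finset.Icc 1 X).filter fun N => InClass N ∧ ParityOver N).card : ℝ) := by
  have e1 : ∀ X : ℕ, (Finset.Icc 1 X).filter (fun N => InClass N) =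
      (Finset.Icc 1 X).filter fun N => Pool.Agent.Y703.CT.Cls N := fun X =>
    Finset.filter_congr fun N _ => class_iff N
  refine ⟨?_, fun N hN => ⟨?_, ?_, fun k _ _ θ h => exists_L hN k θ h, parity_of hN⟩,
    Pool.Agent.Y461.CX.t_C3.2.2.2, ?_⟩
  · simp only [e1]
    exact Pool.Agent.R419.CF.low
  · obtain ⟨k, i1, i2, θ, h1, h2⟩ := Pool.Agent.R419.CE.ex_field ((class_iff N).1 hN)
    exact ⟨k, i1, i2, θ, ⟨h2, Or.inl h1⟩, h1⟩
  · obtain ⟨k, i1, i2, θ, h⟩ := Pool.Agent.R78.S3.exists_fld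
      (Pool.Agent.R78.S3.not_cube ((class_iff N).1 hN))
    exact ⟨k, i1, i2, θ, ⟨h.cube, Or.inr ⟨h.deg, h.gal⟩⟩, h.deg⟩
  · intro ε hε
    obtain ⟨X₀, h⟩ := (Metric.tendsto_atTop.1 Pool.Agent.R419.CF.t_FIN) ε hε
    refine ⟨X₀, fun X hX => ?_⟩
    have h2 := h X hX
    rw [Real.dist_eq, abs_lt] at h2
    have h3 := h2.1
    rw [e1]
    unfold Pool.Agent.Y703.CX.c3 at h3
    set A := (((Finset.Icc 1 X).filter fun D => Pool.Agent.Y703.CT.Cls D).card : ℝ) with hA
    set B := (((Finset.Icc 1 X).filter fun D => Pool.Agent.Y703.CT.Cls D ∧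
      Pool.Agent.Y703.CT.NoSplit D).card : ℝ) with hB
    have hA0 : 0 ≤ A := Nat.cast_nonneg _
    have h4 : ((∏' i : ℕ, (1 - (1 / 3 : ℝ) ^ (i + 1))) - ε) * A ≤ B := by
      rcases hA0.eq_or_lt with h0 | h0
      · rw [← h0, mul_zero]
        exact Nat.cast_nonneg _
      · rw [← le_div_iff₀ h0]
        linarith
    refine h4.trans ?_
    rw [hB]
    norm_cast
    refine Finset.card_le_card fun N hN => ?_
    obtain ⟨a1, a3, a4⟩ := Finset.mem_filter.1 hN
    exact Finset.mem_filter.2 ⟨a1, (class_iff N).2 a3, parity_of ((class_iff N).2 a3) a4⟩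

end Pool.Agent.Results.MP_02f36d_nt.PureCubicParity
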