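import Pool.Agent.R333.BR.OddG
import Pool.Agent.R333.BR.Ord

/-!
# The parity conjecture for semistable elliptic curves: induction from 2-hyperelementary extensions

`E` is a semistable elliptic curve over a number field `K`, with root number `(-1) ^ (m + u)`, where
`m` is the number of the primes of split multiplicative reduction and `u` the number of the infinite
places.  `L / K` is a finite Galois extension.  If the parity conjecture holds for `E` over the
intermediate fields `F` for which `Gal(L/F)` is 2-hyperelementary and generated by its elements of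
2-power order, then it holds for `E` over all intermediate fields of `L / K`, in particular over `K`.

All primes are treated, the ramified ones and those above 2 and 3 included.
-/

set_option autoImplicit false

namespace Pool.Agent.Results.MP_02f36d_nt.SemistableInduction

open NumberField IsDedekindDomain

/-- `W` is an integral model of `E`. -/
def IsModel {K : Type} [Field K] [NumberField K] (E : WeierstrassCurve K)
    (W : WeierstrassCurve (𝓞 K)) : Prop :=
  ∃ C : WeierstrassCurve.VariableChange K, C • W.map (algebraMap (𝓞 K) K) = E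

/-- `E` is semistable: for every prime `v` there is an integral model of `E` whose reduction modulo
`v` is smooth (`Δ` not in `v`) or has a node (`c₄` not in `v`). -/
def Semistable {K : Type} [Field K] [NumberField K] (E : WeierstrassCurve K) : Prop :=
  ∀ v : HeightOneSpectrum (𝓞 K), ∃ W : WeierstrassCurve (𝓞 K), IsModel E W ∧
    (W.Δ ∉ v.asIdeal ∨ W.c₄ ∉ v.asIdeal)

/-- `E` has split multiplicative reduction at `v`: there is an integral model of `E` with
`a₃, a₄, a₆` in `v` and `c₄` not in `v`, so that the reduction `y² + a₁ x y = x³ + a₂ x²` has a node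
at the origin with the tangents `y = t x`, `t² + a₁ t - a₂ = 0`, and such a `t` exists in the residue
field. -/
def SplitMultiplicative {K : Type} [Field K] [NumberField K] (E : WeierstrassCurve K)
    (v : HeightOneSpectrum (𝓞 K)) : Prop :=
  ∃ W : WeierstrassCurve (𝓞 K), IsModel E W ∧
    (W.a₃ ∈ v.asIdeal ∧ W.a₄ ∈ v.asIdeal ∧ W.a₆ ∈ v.asIdeal ∧ W.c₄ ∉ v.asIdeal) ∧
    ∃ t : 𝓞 K, t ^ 2 + W.a₁ * t - W.a₂ ∈ v.asIdeal

/-- The root number of a semistable elliptic curve `E` over `K`: `(-1) ^ (m + u)`, where `m` is the
number of the primes of split multiplicative reduction and `u` the number of the infinite places. -/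
noncomputable def rootNumber {K : Type} [Field K] [NumberField K] (E : WeierstrassCurve K) : ℤ :=
  (-1) ^ (Nat.card {v : HeightOneSpectrum (𝓞 K) // SplitMultiplicative E v} +
    Nat.card (InfinitePlace K))

open Classical in
/-- The group `E(K)` has finite rank `r` and `(-1) ^ r` is the root number: the parity conjecture
for `E / K`. -/
def Parity {K : Type} [Field K] [NumberField K] (E : WeierstrassCurve K) : Prop :=
  ∃ r : ℕ, Module.rank ℤ E.toAffine.Point = r ∧ (-1 : ℤ) ^ r = rootNumber E

/-- The group `G` is 2-hyperelementary: it has a cyclic normal subgroup `C` of odd order such that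
`G / C` is a 2-group. -/
def TwoHyperelementary (G : Type) [Group G] : Prop :=
  ∃ C : Subgroup G, C.Normal ∧ IsCyclic C ∧ Odd (Nat.card C) ∧ ∀ g : G, ∃ k : ℕ, g ^ 2 ^ k ∈ C

/-- The group `G` is generated by its elements of 2-power order (for a finite group: it has no
quotient of odd order other than 1). -/
def TwoGenerated (G : Type) [Group G] : Prop :=
  Subgroup.closure {g : G | ∃ k : ℕ, g ^ 2 ^ k = 1} = ⊤

section Aux

open Pool.Agent.R433.MD (fx Ext emb fx_eq_emb gal_unit IsHyper hyper_count)
open Pool.Agent.R333.BR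

section bridge
variable {K : Type} [Field K] [NumberField K]

theorem isModel_iff (E : WeierstrassCurve K) (W : WeierstrassCurve (𝓞 K)) :
    IsModel E W ↔ Pool.Agent.H341R2.EC.IsModel E W := by
  constructor
  · rintro ⟨C, hC⟩
    exact ⟨C⁻¹, by rw [← hC, inv_smul_smul]⟩
  · rintro ⟨C, hC⟩
    exact ⟨C⁻¹, by rw [← hC, inv_smul_smul]⟩

theorem semi_iff (E : WeierstrassCurve K) : Semistable E ↔ ∀ v, SemiAt E v := by
  unfold Semistable SemiAt
  simp only [isModel_iff]

theorem split_iff' (E : WeierstrassCurve K) (v : HeightOneSpectrum (𝓞 K)) :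
    SplitMultiplicative E v ↔ Split E v := by
  unfold SplitMultiplicative Split NodeAt TangentAt
  simp only [isModel_iff]

theorem root_eq (E : WeierstrassCurve K) : rootNumber E = (-1) ^ rex E := by
  classical
  unfold rootNumber rex ns
  simp only [split_iff', Nat.card_eq_fintype_card (α := InfinitePlace K)]

theorem neg_pow_iff (a b : ℕ) : (-1 : ℤ) ^ a = (-1) ^ b ↔ Even (a + b) := by
  rcases Nat.even_or_odd a with ha | ha <;> rcases Nat.even_or_odd b with hb | hb
  · simp [ha.neg_one_pow, hb.neg_one_pow, ha.add hb]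
  · simp [ha.neg_one_pow, hb.neg_one_pow, ha.add_odd hb]
  · simp [ha.neg_one_pow, hb.neg_one_pow, ha.add_even hb]
  · simp [ha.neg_one_pow, hb.neg_one_pow, ha.add_odd hb]

open Classical in
theorem parity_iff (E : WeierstrassCurve K) :
    Parity E ↔ ∃ r : ℕ, Module.rank ℤ E.toAffine.Point = r ∧ Even (r + rex E) := by
  unfold Parity
  refine exists_congr fun r => and_congr_right fun _ => ?_
  rw [root_eq, neg_pow_iff]

end bridge

section groups

theorem hyper_congr {G G' : Type} [Group G] [Group G'] (e : G ≃* G') (h : TwoHyperelementary G) :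
    TwoHyperelementary G' := by
  obtain ⟨C, hn, hc, ho, hk⟩ := h
  refine ⟨C.map e.toMonoidHom, ?_, ?_, ?_, fun g => ?_⟩
  · exact hn.map _ e.surjective
  · let e' : C ≃* C.map e.toMonoidHom := C.equivMapOfInjective _ e.injective
    exact isCyclic_of_surjective e'.toMonoidHom e'.surjective
  · let e' : C ≃* C.map e.toMonoidHom := C.equivMapOfInjective _ e.injective
    rw [← Nat.card_congr e'.toEquiv]
    exact ho
  · obtain ⟨k, hk⟩ := hk (e.symm g)
    refine ⟨k, ⟨_, hk, ?_⟩⟩
    change e (e.symm g ^ 2 ^ k) = g ^ 2 ^ k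
    rw [map_pow, e.apply_symm_apply]

theorem gen_congr {G G' : Type} [Group G] [Group G'] (e : G ≃* G') (h : TwoGenerated G) :
    TwoGenerated G' := by
  unfold TwoGenerated at h ⊢
  have h1 : (Subgroup.closure {g : G | ∃ k : ℕ, g ^ 2 ^ k = 1}).map e.toMonoidHom =
      Subgroup.closure {g : G' | ∃ k : ℕ, g ^ 2 ^ k = 1} := by
    rw [MonoidHom.map_closure]
    congr 1
    ext g
    constructor
    · rintro ⟨x, ⟨k, hk⟩, rfl⟩
      refine ⟨k, ?_⟩
      change e x ^ 2 ^ k = 1
      rw [← map_pow, hk, map_one]
    · rintro ⟨k, hk⟩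
      refine ⟨e.symm g, ⟨k, ?_⟩, e.apply_symm_apply g⟩
      rw [← map_pow, hk, map_one]
  rw [← h1, h, ← MonoidHom.range_eq_map, MonoidHom.range_eq_top]
  exact e.surjective

theorem hyper_sub {G : Type} [Group G] (H : Subgroup G) (h : TwoHyperelementary G) :
    TwoHyperelementary H := by
  obtain ⟨C, hn, hc, ho, hk⟩ := h
  have hinj : Function.Injective (fun x : C.subgroupOf H => (⟨(x : H), x.2⟩ : C)) := by
    intro x y hxy
    exact Subtype.ext (Subtype.ext (congrArg (fun z : C => (z : G)) hxy))
  let q : C.subgroupOf H →* C :=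
    { toFun := fun x => ⟨(x : H), x.2⟩
      map_one' := rfl
      map_mul' := fun _ _ => rfl }
  refine ⟨C.subgroupOf H, inferInstance, ?_, ?_, fun g => ?_⟩
  · exact isCyclic_of_injective q hinj
  · exact ho.of_dvd_nat (Subgroup.card_dvd_of_injective q hinj)
  · obtain ⟨k, hk⟩ := hk g
    exact ⟨k, hk⟩

/-- the subgroup generated by the elements of 2-power order -/
def res (G : Type) [Group G] : Subgroup G := Subgroup.closure {g : G | ∃ k : ℕ, g ^ 2 ^ k = 1}

theorem res_gen (G : Type) [Group G] : TwoGenerated (res G) := by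
  unfold TwoGenerated
  have h1 : {g : res G | ∃ k : ℕ, g ^ 2 ^ k = 1} =
      ((↑) : Subgroup.closure {g : G | ∃ k : ℕ, g ^ 2 ^ k = 1} → G) ⁻¹'
        {g : G | ∃ k : ℕ, g ^ 2 ^ k = 1} := by
    ext g
    refine exists_congr fun k => ?_
    rw [Subtype.ext_iff]
    rfl
  rw [h1]
  exact Subgroup.closure_closure_coe_preimage

instance res_normal (G : Type) [Group G] : (res G).Normal := by
  refine ⟨fun n hn g => ?_⟩
  have h1 : (res G).map (MulAut.conj g).toMonoidHom ≤ res G := by
    unfold res
    rw [MonoidHom.map_closure, Subgroup.closure_le]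
    rintro _ ⟨x, ⟨k, hk⟩, rfl⟩
    refine Subgroup.subset_closure ⟨k, ?_⟩
    rw [← map_pow, hk, map_one]
  exact h1 ⟨n, hn, rfl⟩

theorem res_quot {G : Type} [Group G] [Finite G] (h : TwoHyperelementary G) :
    IsCyclic (G ⧸ res G) ∧ Odd (Nat.card (G ⧸ res G)) := by
  obtain ⟨C, hn, hc, ho, hk⟩ := h
  have hsurj : Function.Surjective ((QuotientGroup.mk' (res G)).comp C.subtype) := by
    intro y
    obtain ⟨g, rfl⟩ := QuotientGroup.mk'_surjective (res G) y
    obtain ⟨k, hk⟩ := hk g
    set o := orderOf (g ^ 2 ^ k) with ho'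
    have h1 : Odd o := by
      have h2 : o ∣ Nat.card C := by
        have h3 : orderOf (⟨g ^ 2 ^ k, hk⟩ : C) ∣ Nat.card C := orderOf_dvd_natCard _
        rwa [Subgroup.orderOf_mk] at h3
      exact ho.of_dvd_nat h2
    have hcop : Nat.Coprime (2 ^ k) o := Nat.Coprime.pow_left k (Nat.coprime_two_left.2 h1)
    have hb : (1 : ℤ) = (2 ^ k : ℕ) * Nat.gcdA (2 ^ k) o + o * Nat.gcdB (2 ^ k) o := by
      rw [← Nat.gcd_eq_gcd_ab, hcop.gcd_eq_one]
      rfl
    set x := Nat.gcdA (2 ^ k) o
    set z := Nat.gcdB (2 ^ k) o
    have hg : g = (g ^ 2 ^ k) ^ x * (g ^ o) ^ z := by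
      conv_lhs => rw [← zpow_one g, hb]
      rw [zpow_add, zpow_mul, zpow_mul, zpow_natCast, zpow_natCast]
    have h2 : g ^ o ∈ res G := by
      refine Subgroup.subset_closure ⟨k, ?_⟩
      rw [← pow_mul, mul_comm, pow_mul, ho', pow_orderOf_eq_one]
    have h3 : ((g ^ 2 ^ k) ^ x)⁻¹ * g = (g ^ o) ^ z := by
      rw [inv_mul_eq_iff_eq_mul]
      exact hg
    refine ⟨⟨(g ^ 2 ^ k) ^ x, C.zpow_mem hk x⟩, ?_⟩
    change (((g ^ 2 ^ k) ^ x : G) : G ⧸ res G) = (g : G ⧸ res G)
    rw [QuotientGroup.eq, h3]
    exact Subgroup.zpow_mem _ h2 _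
  exact ⟨isCyclic_of_surjective _ hsurj, ho.of_dvd_nat (Subgroup.card_dvd_of_surjective _ hsurj)⟩

end groups

section steps

/-- relations -/
theorem parity_rel {K L : Type} [Field K] [NumberField K] [Field L] [NumberField L] [Algebra K L]
    [IsGalois K L] {ι : Type} [Fintype ι] [Nonempty ι] (Z : ι → Ext K) (f : ∀ i, (Z i).F →ₐ[K] L)
    (e : ι → ℤ) (m : ℕ) (hm : Odd m)
    (h : ∀ g : Gal(L/K), ∑ i, e i * fx (f i).fieldRange.fixingSubgroup g = m)
    (E : WeierstrassCurve K) (hE : E.IsElliptic) (hs : Semistable E)
    (hp : ∀ i, Parity (E.map (algebraMap K (Z i).F))) : Parity E := by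
  classical
  choose r hr hev using fun i => (parity_iff _).1 (hp i)
  obtain ⟨r0, h1, h2⟩ := rank_rel E (fun i => (Z i).F) f e m h r hr
  have h3 := rex_rel Z f e m h hE ((semi_iff E).1 hs)
  refine (parity_iff _).2 ⟨r0, h1, ?_⟩
  have h4 : Even ((m : ℤ) * (r0 + rex E)) := by
    have h5 : (m : ℤ) * (r0 + rex E) =
        ∑ i, e i * ((r i + rex (E.map (algebraMap K (Z i).F)) : ℕ) : ℤ) := by
      rw [mul_add, h2, ← h3, ← Finset.sum_add_distrib]
      refine Finset.sum_congr rfl fun i _ => ?_
      push_cast
      ring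
    rw [h5]
    refine Finset.even_sum _ fun i _ => ?_
    have h6 : Even ((r i + rex (E.map (algebraMap K (Z i).F)) : ℕ) : ℤ) := by
      exact_mod_cast hev i
    exact h6.mul_left _
  have hm' : Odd (m : ℤ) := by exact_mod_cast hm
  have h7 : Even ((r0 : ℤ) + rex E) := by
    rcases Int.even_mul.1 h4 with h8 | h8
    · exact absurd h8 (Int.not_even_iff_odd.2 hm')
    · exact h8
  exact_mod_cast h7

/-- cyclic extensions of odd degree -/
theorem parity_odd {F F' : Type} [Field F] [NumberField F] [Field F'] [NumberField F']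
    [Algebra F F'] [IsGalois F F'] (hc : IsCyclic Gal(F'/F)) (ho : Odd (Nat.card Gal(F'/F)))
    (E : WeierstrassCurve F) (hE : E.IsElliptic) (hs : Semistable E)
    (hp : Parity (E.map (algebraMap F F'))) : Parity E := by
  classical
  obtain ⟨r', hr', hev'⟩ := (parity_iff _).1 hp
  obtain ⟨r, hr, hev⟩ := rank_odd hc ho E r' hr'
  refine (parity_iff _).2 ⟨r, hr, ?_⟩
  have h1 := rex_odd (L := F') ho hE ((semi_iff E).1 hs)
  obtain ⟨a, ha⟩ := hev'
  obtain ⟨b, hb⟩ := hev
  obtain ⟨c, hc⟩ := h1
  exact ⟨b + c - a, by omega⟩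

theorem semi_map {K F : Type} [Field K] [NumberField K] [Field F] [NumberField F] [Algebra K F]
    {E : WeierstrassCurve K} (hs : Semistable E) : Semistable (E.map (algebraMap K F)) := by
  rw [semi_iff] at hs ⊢
  exact fun w => semi_ext (hs (Pool.Agent.R433.MD.und w)) ⟨w, rfl⟩

/-- the hyperelementary case, from an odd cyclic extension -/
theorem parity_res {F L : Type} [Field F] [NumberField F] [Field L] [NumberField L] [Algebra F L]
    [IsGalois F L] (hH : TwoHyperelementary Gal(L/F)) (E : WeierstrassCurve F)
    (hE : E.IsElliptic) (hs : Semistable E)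
    (hp : ∀ F' : IntermediateField F L, TwoHyperelementary Gal(L/F') → TwoGenerated Gal(L/F') →
      Parity (E.map (algebraMap F F'))) : Parity E := by
  let N := res Gal(L/F)
  let F' := IntermediateField.fixedField N
  have e1 : N ≃* Gal(L/F') := IntermediateField.subgroupEquivAlgEquiv N
  have h1 : TwoHyperelementary Gal(L/F') := hyper_congr e1 (hyper_sub N hH)
  have h2 : TwoGenerated Gal(L/F') := gen_congr e1 (res_gen _)
  have e2 : Gal(L/F) ⧸ N ≃* Gal(F'/F) := IsGalois.normalAutEquivQuotient N
  obtain ⟨h3, h4⟩ := res_quot hH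
  have h5 : IsCyclic Gal(F'/F) := isCyclic_of_surjective e2.toMonoidHom e2.surjective
  have h6 : Odd (Nat.card Gal(F'/F)) := by
    rw [← Nat.card_congr e2.toEquiv]
    exact h4
  exact parity_odd h5 h6 E hE hs (hp F' h1 h2)

theorem hyper_of {K L : Type} [Field K] [Field L] [Algebra K L] (F : IntermediateField K L)
    (h : IsHyper 2 F.fixingSubgroup) : TwoHyperelementary Gal(L/F) := by
  refine hyper_congr (IntermediateField.fixingSubgroupEquiv F) ?_
  obtain ⟨C, hC, hcyc, hcop, hnorm, hpow⟩ := h
  have hinj : Function.Injective (fun x : C.subgroupOf F.fixingSubgroup =>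
      (⟨(x : F.fixingSubgroup), x.2⟩ : C)) := by
    intro x y hxy
    exact Subtype.ext (Subtype.ext (congrArg (fun z : C => (z : Gal(L/K))) hxy))
  let q : C.subgroupOf F.fixingSubgroup →* C :=
    { toFun := fun x => ⟨(x : F.fixingSubgroup), x.2⟩
      map_one' := rfl
      map_mul' := fun _ _ => rfl }
  refine ⟨C.subgroupOf F.fixingSubgroup, ⟨fun n hn g => ?_⟩, ?_, ?_, fun g => ?_⟩
  · exact hnorm g g.2 n hn
  · exact isCyclic_of_injective q hinj
  · exact (Nat.coprime_two_right.1 hcop).of_dvd_nat (Subgroup.card_dvd_of_injective q hinj)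
  · obtain ⟨k, hk⟩ := hpow g g.2
    exact ⟨k, hk⟩

/-- induction from the 2-hyperelementary extensions -/
theorem parity_hyper {K L : Type} [Field K] [NumberField K] [Field L] [NumberField L] [Algebra K L]
    [IsGalois K L] (E : WeierstrassCurve K) (hE : E.IsElliptic) (hs : Semistable E)
    (hF : ∀ F : IntermediateField K L, TwoHyperelementary Gal(L/F) →
      Parity (E.map (algebraMap K F))) : Parity E := by
  classical
  obtain ⟨m, S, n, hm0, hmP, hS, hsum⟩ := gal_unit
    {F : IntermediateField K L | IsHyper 2 F.fixingSubgroup}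
    (by
      intro F hF F' _
      have hle : (F ⊔ F').fixingSubgroup ≤ F.fixingSubgroup := by
        rw [IntermediateField.fixingSubgroup_sup]
        exact inf_le_left
      have hF' : IsHyper 2 F.fixingSubgroup := hF
      exact hF'.le hle)
    (by
      intro F hF σ
      have e : (F.map (σ : L →ₐ[K] L)).fixingSubgroup =
          F.fixingSubgroup.map (MulAut.conj σ).toMonoidHom := IsGalois.map_fixingSubgroup F σ
      rw [Set.mem_ofPred_eq, e]
      have hF' : IsHyper 2 F.fixingSubgroup := hF
      exact hF'.conj σ) {2}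
    (by
      intro g
      obtain ⟨H, hH, h⟩ := hyper_count Nat.prime_two g
      have e : (IntermediateField.fixedField H).fixingSubgroup = H :=
        IntermediateField.fixingSubgroup_fixedField _
      refine ⟨IntermediateField.fixedField H, ?_, ?_⟩
      · rw [Set.mem_ofPred_eq, e]
        exact hH
      · have h1 := fx_eq_emb (IntermediateField.fixedField H) g
        rw [e] at h1
        intro h2
        rw [h1, h2] at h
        exact h (dvd_zero _))
    (by
      intro g p hp hpp
      obtain rfl : p = 2 := hp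
      obtain ⟨H, hH, h⟩ := hyper_count Nat.prime_two g
      have e : (IntermediateField.fixedField H).fixingSubgroup = H :=
        IntermediateField.fixingSubgroup_fixedField _
      refine ⟨IntermediateField.fixedField H, ?_, ?_⟩
      · rw [Set.mem_ofPred_eq, e]
        exact hH
      · have h1 := fx_eq_emb (IntermediateField.fixedField H) g
        rw [e] at h1
        rw [h1] at h
        exact_mod_cast h)
  have hodd : Odd m := by
    rw [← Nat.not_even_iff_odd, even_iff_two_dvd]
    exact hmP 2 rfl Nat.prime_two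
  have hrel : ∀ g : Gal(L/K), ∑ i : S, n i.1 * fx (i.1.val).fieldRange.fixingSubgroup g = m := by
    intro g
    rw [← hsum g, ← Finset.sum_coe_sort S (fun F => n F * fx F.fixingSubgroup g)]
    refine Finset.sum_congr rfl fun i _ => ?_
    rw [IntermediateField.fieldRange_val]
  have hne : Nonempty S := by
    by_contra h
    rw [not_nonempty_iff] at h
    have h1 := hrel 1
    rw [Finset.univ_eq_empty, Finset.sum_empty] at h1
    exact hm0 (by exact_mod_cast h1.symm)
  exact parity_rel (fun i : S => (⟨i.1⟩ : Ext K)) (fun i => i.1.val) (fun i => n i.1) m hodd hrel E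
    hE hs fun i => hF i.1 (hyper_of i.1 (hS i.1 i.2))

end steps

end Aux

/-- **Induction for the parity conjecture.** Let `E` be a semistable elliptic curve over a number
field `K` and `L / K` a finite Galois extension. The parity conjecture holds for `E` over all
intermediate fields of `L / K` (`K` included) if and only if it holds for `E` over the intermediate
fields `F` for which `Gal(L/F)` is 2-hyperelementary and generated by its elements of 2-power
order. -/
theorem result (K L : Type) [Field K] [NumberField K] [Field L] [NumberField L] [Algebra K L]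
    [IsGalois K L] (E : WeierstrassCurve K) (hE : E.IsElliptic) (hs : Semistable E) :
    (Parity E ∧ ∀ M : IntermediateField K L, Parity (E.map (algebraMap K M))) ↔
      ∀ F : IntermediateField K L, TwoHyperelementary Gal(L/F) → TwoGenerated Gal(L/F) →
        Parity (E.map (algebraMap K F)) := by
  refine ⟨fun h F _ _ => h.2 F, fun h => ?_⟩
  have key : ∀ M : IntermediateField K L, Parity (E.map (algebraMap K M)) := by
    intro M
    refine parity_hyper (L := L) _ inferInstance (semi_map hs) fun F hF => ?_
    refine parity_res (L := L) hF _ inferInstance (semi_map (semi_map hs)) fun F' h1 h2 => ?_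
    have h3 := h ((F'.restrictScalars M).restrictScalars K) h1 h2
    rw [WeierstrassCurve.map_map, WeierstrassCurve.map_map]
    exact h3
  refine ⟨?_, key⟩
  refine parity_hyper (L := L) _ inferInstance hs fun F hF => ?_
  exact key F

end Pool.Agent.Results.MP_02f36d_nt.SemistableInduction
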