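import Pool.Agent.R386.HY.Par
import Pool.Agent.R386.HY.Cube

/-!
# The parity conjecture for semistable elliptic curves: reduction to special curves

For a semistable elliptic curve `E` over a number field `F` the global root number is
`w(E/F) = (-1) ^ (m + u)`, where `m` is the number of the primes of `F` at which `E` has split
multiplicative reduction and `u` is the number of the archimedean places of `F`.  The parity conjecture
says that `(-1) ^ rk E(F) = w(E/F)`.  We prove, unconditionally:

(1) Let `E/K` be semistable.  If the parity conjecture holds for `E` over the extensions `F` of `K` of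
degree at most `6` such that the discriminant of `E` is a cube in `F` or `E` has a subgroup of order `3`
rational over `F`, then it holds for `E` over `K`.

(2) So the parity conjecture for all semistable elliptic curves over all number fields is equivalent to
the parity conjecture for those whose discriminant is a cube or which have a rational subgroup of
order three.

The proof.  Ranks, the numbers of archimedean places and the numbers of the split multiplicative primes
(ramified primes included) satisfy all the relations between the permutation characters of Galois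
groups.  The trivial character of the group of permutations of the four subgroups of order three is
`1 = [4 points] + [3 double transpositions] - [6 pairs]`, and the last two sets belong to extensions
that contain a cube root of the discriminant: with the roots `a, b, c, d` of the third division
polynomial, `(b₄ - 3 (a b + c d)) ^ 3 = Δ`.
-/

set_option autoImplicit false

namespace Pool.Agent.Results.MP_02f36d_nt.SpecialFieldsReduction

open NumberField IsDedekindDomain

section defs
variable {F : Type} [Field F] [NumberField F]

/-- `V` is a model of `E` over the ring of integers. -/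
def IntegralModel (E : WeierstrassCurve F) (V : WeierstrassCurve (𝓞 F)) : Prop :=
  ∃ C : WeierstrassCurve.VariableChange F, C • E = V.map (algebraMap (𝓞 F) F)

/-- `E` is semistable: every prime has an integral model with good or multiplicative reduction. -/
def Semistable (E : WeierstrassCurve F) : Prop :=
  ∀ v : HeightOneSpectrum (𝓞 F), ∃ V : WeierstrassCurve (𝓞 F), IntegralModel E V ∧
    (V.Δ ∉ v.asIdeal ∨ V.c₄ ∉ v.asIdeal)

/-- Split multiplicative reduction at `w`: there is an integral model with multiplicative reduction
at `w` whose reduction has exactly `q - 1` affine points over the residue field with `q` elements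
(`q - 2` smooth points and the node; a non-split nodal cubic has `q + 1` affine points). -/
def SplitMultiplicative (E : WeierstrassCurve F) (w : HeightOneSpectrum (𝓞 F)) : Prop :=
  ∃ V : WeierstrassCurve (𝓞 F), IntegralModel E V ∧ V.Δ ∈ w.asIdeal ∧ V.c₄ ∉ w.asIdeal ∧
    Nat.card {xy : (𝓞 F ⧸ w.asIdeal) × (𝓞 F ⧸ w.asIdeal) //
      (V.map (Ideal.Quotient.mk w.asIdeal)).toAffine.Equation xy.1 xy.2} + 1 =
        Nat.card (𝓞 F ⧸ w.asIdeal)

/-- The global root number `(-1) ^ (m + u)` of a semistable curve. -/
noncomputable def rootNumber (E : WeierstrassCurve F) : ℤ :=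
  (-1) ^ (Nat.card {w : HeightOneSpectrum (𝓞 F) // SplitMultiplicative E w} +
    Nat.card (InfinitePlace F))

open scoped Classical in
/-- The rank `r` of `E(F)` satisfies `(-1) ^ r = w(E/F)`. -/
def ParityHolds (E : WeierstrassCurve F) : Prop :=
  ∃ r : ℕ, Module.rank ℤ E.toAffine.Point = r ∧ (-1 : ℤ) ^ r = rootNumber E

/-- The discriminant is a cube in `F`. -/
def CubeDiscriminant (E : WeierstrassCurve F) : Prop := ∃ z : F, z ^ 3 = E.Δ

/-- `E` has a subgroup of order three rational over `F`: the third division polynomial, whose roots
are the `x`-coordinates of the points of order three, has a root in `F`. -/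
def RationalThreeSubgroup (E : WeierstrassCurve F) : Prop :=
  ∃ x : F, 3 * x ^ 4 + E.b₂ * x ^ 3 + 3 * E.b₄ * x ^ 2 + 3 * E.b₆ * x + E.b₈ = 0

end defs

theorem split_iff {F : Type} [Field F] [NumberField F] (E : WeierstrassCurve F)
    (w : HeightOneSpectrum (𝓞 F)) :
    SplitMultiplicative E w ↔ Pool.Agent.R386.HY.Split E w := by
  refine exists_congr fun V => and_congr Iff.rfl (and_congr Iff.rfl (and_congr Iff.rfl ?_))
  have h1 : Nat.card {xy : (𝓞 F ⧸ w.asIdeal) × (𝓞 F ⧸ w.asIdeal) //
      (V.map (Ideal.Quotient.mk w.asIdeal)).toAffine.Equation xy.1 xy.2} =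
        Pool.Agent.H341R2.EC.aff (Pool.Agent.H341R2.EC.red w V) := by
    refine Nat.card_congr (Equiv.subtypeEquivRight fun xy => ?_)
    rw [WeierstrassCurve.Affine.equation_iff]
    rfl
  rw [h1]
  rfl

theorem parity_iff {F : Type} [Field F] [NumberField F] (E : WeierstrassCurve F) :
    ParityHolds E ↔ Pool.Agent.R386.HY.Parity E := by
  classical
  have h : ∀ a b c : ℕ, ((-1 : ℤ) ^ a = (-1) ^ (b + c)) ↔ Even (a + c + b) := by
    intro a b c
    rcases Nat.even_or_odd a with ha | ha <;> rcases Nat.even_or_odd (b + c) with hb | hb
    · rw [ha.neg_one_pow, hb.neg_one_pow]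
      refine ⟨fun _ => ?_, fun _ => rfl⟩
      have := ha.add hb
      rwa [show a + (b + c) = a + c + b by ring] at this
    · rw [ha.neg_one_pow, hb.neg_one_pow]
      refine ⟨fun h => absurd h (by norm_num), fun h => ?_⟩
      have := ha.add_odd hb
      rw [show a + (b + c) = a + c + b by ring] at this
      exact absurd h (Nat.not_even_iff_odd.2 this)
    · rw [ha.neg_one_pow, hb.neg_one_pow]
      refine ⟨fun h => absurd h (by norm_num), fun h => ?_⟩
      have := ha.add_even hb
      rw [show a + (b + c) = a + c + b by ring] at this
      exact absurd h (Nat.not_even_iff_odd.2 this)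
    · rw [ha.neg_one_pow, hb.neg_one_pow]
      refine ⟨fun _ => ?_, fun _ => rfl⟩
      have := ha.add_odd hb
      rwa [show a + (b + c) = a + c + b by ring] at this
  refine exists_congr fun r => and_congr Iff.rfl ?_
  have e : Nat.card {w : HeightOneSpectrum (𝓞 F) // SplitMultiplicative E w} =
      Nat.card {w : HeightOneSpectrum (𝓞 F) // Pool.Agent.R386.HY.Split E w} :=
    Nat.card_congr (Equiv.subtypeEquivRight fun w => split_iff E w)
  unfold rootNumber
  rw [e]
  exact h r _ _

theorem semistable_map {K : Type} [Field K] [NumberField K] {E : WeierstrassCurve K}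
    (h : Semistable E) (F : Type) [Field F] [NumberField F] [Algebra K F] :
    Semistable (E.map (algebraMap K F)) := by
  intro w
  obtain ⟨V, hV, hv⟩ := h (Pool.Agent.R433.MD.und (K := K) w)
  refine ⟨V.map (algebraMap (𝓞 K) (𝓞 F)), Pool.Agent.R386.HY.model_map hV F, ?_⟩
  rw [WeierstrassCurve.map_Δ, WeierstrassCurve.map_c₄]
  exact hv

/-- **Main result.** -/
theorem result :
    (∀ (K : Type) [Field K] [NumberField K] (E : WeierstrassCurve K), E.IsElliptic →
      Semistable E →
      (∀ (F : Type) [Field F] [NumberField F] [Algebra K F], Module.finrank K F ≤ 6 →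
        CubeDiscriminant (E.map (algebraMap K F)) ∨
          RationalThreeSubgroup (E.map (algebraMap K F)) →
        ParityHolds (E.map (algebraMap K F))) → ParityHolds E) ∧
    ((∀ (K : Type) [Field K] [NumberField K] (E : WeierstrassCurve K), E.IsElliptic →
        Semistable E → CubeDiscriminant E ∨ RationalThreeSubgroup E → ParityHolds E) →
      ∀ (K : Type) [Field K] [NumberField K] (E : WeierstrassCurve K), E.IsElliptic →
        Semistable E → ParityHolds E) := by
  have h2 : ∀ (K : Type) [Field K] [NumberField K] (E : WeierstrassCurve K), E.IsElliptic →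
      Semistable E →
      (∀ (F : Type) [Field F] [NumberField F] [Algebra K F], Module.finrank K F ≤ 6 →
        CubeDiscriminant (E.map (algebraMap K F)) ∨
          RationalThreeSubgroup (E.map (algebraMap K F)) →
        ParityHolds (E.map (algebraMap K F))) → ParityHolds E := by
    intro K _ _ E hE hs hP
    obtain ⟨L, _, _, _, _, S, n, hS, hsum⟩ := Pool.Agent.R386.HY.cube_rel E hE
    rw [parity_iff]
    refine Pool.Agent.R386.HY.parity_of_rel hE hs S n 1 (by norm_num) (by
      intro g
      rw [hsum g]
      rfl) fun F hF => ?_
    rw [← parity_iff]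
    exact hP F (hS F hF).2 (hS F hF).1
  refine ⟨h2, ?_⟩
  intro h K _ _ E hE hs
  refine h2 K E hE hs fun F _ _ _ _ hF => ?_
  exact h F _ inferInstance (semistable_map hs F) hF

end Pool.Agent.Results.MP_02f36d_nt.SpecialFieldsReduction
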