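import Pool.Agent.Results.MP_a43263_nt.TwoGroupForms
import Pool.Agent.R431.P.QR
import Pool.Agent.R431.P.Sgn
import Pool.Agent.R431.P.Pt

/-!
# The parity conjecture over all the subfields of nonabelian 2-extensions of `ℚ`

Let `K` be a Galois extension of `ℚ` whose degree is a power of two (its Galois group may be nonabelian),
ramified only at primes `l ∤ 2 Δ` with `a_l(E)` odd, and let `k` be ANY subfield of `K`, Galois over `ℚ`
or not. Either `E = X_0(11)` (`K` is unramified at `2` and `11`, but these primes may decompose in any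
way), or `E` has negative discriminant, `E(ℚ)` is finite of odd order, `Ш(E/ℚ)[2] = 0`, and the residue
degree in `K` of the primes above `2 Δ` is one. We prove that `E(k)` is finite of odd order and that the
global root number of `E` over `k` is `w(E/ℚ)^[k : ℚ]`; for `E = X_0(11)` it is one. So the parity
conjecture holds for `E` over `k` (in the second case `w(E/ℚ) = 1` by the theorem of Dokchitser and
Dokchitser, since `E(ℚ)` and `Ш(E/ℚ)[2^∞]` are finite; if the degree of `k` is even, this is not needed).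

The local root numbers over `k`: `-1` at the infinite places. For `E = X_0(11)`, which is semistable, with
split multiplicative reduction at `11`, the local root number is `-1` at all the places above `11`, and
`1` at the other finite places. In the second case the completions of `k` at the places above a prime
`p ∣ Δ` are `ℚ_p`, so that the local root number is the local root number `w p` of `E` over `ℚ_p`; at the
places that do not divide `Δ` it is `1`. So the global root number is `root W w k` below.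

If `a ∈ k` has a square root in `K`, the theorem for `k` and for `k(√a)` gives the parity conjecture for
the quadratic twist `E_a` over `k`, which in general is not a curve over `ℚ`: the ranks are additive and
the root numbers are multiplicative.

Examples of nonabelian fields `K` for `X_0(11)` are the Hilbert class field of `ℚ(√-155)` (dihedral of
order 8, ramified at `5` and `31`, where `a_5 = 1` and `a_31 = 7`) and the composites of such fields; it
has subfields `k` of degree 4 which are not Galois over `ℚ`, with complex places.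
-/

set_option autoImplicit false

open NumberField IsDedekindDomain WeierstrassCurve

namespace Pool.Agent.Results.MP_02f36d_nt.SubfieldsOfTwoExt

open scoped Classical

open Pool.Agent.Results.MP_a43263_nt.TwoGroupForms
  (base pts X011 Unramified Seed triv11 trivG Triv)

/-- The number of the finite places of `k` above `p`. -/
noncomputable def places (k : Type) [Field k] [NumberField k] (p : ℕ) : ℕ :=
  Nat.card {v : HeightOneSpectrum (𝓞 k) // (p : 𝓞 k) ∈ v.asIdeal}

/-- The global root number of `E` over `k`: the local root number is `-1` at the infinite places, `w p` at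
the places above the prime divisors `p` of `Δ`, `1` at the other places. -/
noncomputable def root (W : WeierstrassCurve ℤ) (w : ℕ → ℤ) (k : Type) [Field k] [NumberField k] : ℤ :=
  (-1) ^ Fintype.card (InfinitePlace k) * ∏ p ∈ W.Δ.natAbs.primeFactors, w p ^ places k p

/-- The global root number of `E` over `ℚ`. -/
def rootQ (W : WeierstrassCurve ℤ) (w : ℕ → ℤ) : ℤ := (-1) * ∏ p ∈ W.Δ.natAbs.primeFactors, w p

theorem parity_mul {a b : ℕ} {x : ℤ} (hx : x = 1 ∨ x = -1) (h : ((-1 : ℤ)) ^ (a + b) = 1) :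
    x ^ b = x ^ a := by
  rcases hx with rfl | rfl
  · rw [one_pow, one_pow]
  · rw [pow_add] at h
    rcases neg_one_pow_eq_or ℤ a with h1 | h1 <;> rw [h1] at h ⊢ <;> linarith

/-- **Main theorem.** Let `K` be a Galois extension of `ℚ` of degree `2 ^ n`, ramified at most at the
primes `l ∣ m`, and let `l ∤ 2 Δ` and `a_l = l - pts` be odd for all primes `l ∣ m`. Let
`E = X_0(11)`, or let `Δ < 0`, `E(ℚ)` finite of odd order, `Ш(E/ℚ)[2] = 0`, and let the residue
degrees of the primes of `K` above the prime divisors of `2 Δ` be one. Let `k` be any number field with an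
embedding into `K`. Then `E(k)` is finite of odd order and, for all values `w` of the local root numbers
of `E` over `ℚ` (with `w 11 = -1` for `X_0(11)`), the global root number of `E` over `k` is
`w(E/ℚ) ^ [k : ℚ]`; for `X_0(11)` it is one. -/
theorem result (W : WeierstrassCurve ℤ) (K : Type) [Field K] [NumberField K] [IsGalois ℚ K]
    (n m : ℕ) (hn : Module.finrank ℚ K = 2 ^ n)
    (hm : ∀ l : ℕ, l.Prime → l ∣ m → ¬ (l : ℤ) ∣ 2 * W.Δ ∧ Odd ((l : ℤ) - pts W (ZMod l)))
    (hunr : ∀ p : ℕ, p.Prime → ¬ p ∣ m → Unramified K p)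
    (hW : W = X011 ∨ (W.Δ < 0 ∧ Seed W ∧ ∀ v : HeightOneSpectrum (𝓞 K),
      ((2 * W.Δ : ℤ) : 𝓞 K) ∈ v.asIdeal → (Ideal.absNorm v.asIdeal).Prime))
    (k : Type) [Field k] [NumberField k] (j : k →+* K) :
    (Finite (base W k).toAffine.Point ∧ Odd (Nat.card (base W k).toAffine.Point)) ∧
    (∀ w : ℕ → ℤ, (∀ p, w p = 1 ∨ w p = -1) → (W = X011 → w 11 = -1) →
      root W w k = rootQ W w ^ Module.finrank ℚ k) ∧
    (W = X011 → ∀ w : ℕ → ℤ, w 11 = -1 → root W w k = 1) := by
  have hT : Triv W K := by
    rcases hW with rfl | ⟨h1, h2, h3⟩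
    · exact triv11 K n m hn hm hunr
    · exact trivG W h1 h2 K n m hn hm hunr h3
  refine ⟨Pool.Agent.R431.P.pt_sub W k K j hT.2.1 hT.2.2, ?_⟩
  letI : Algebra k K := j.toAlgebra
  obtain ⟨d, r, hd, hr, hσ⟩ := Pool.Agent.R431.P.exists_sqrt (Pool.Agent.R431.P.chi k (K := K))
  -- `K` is unramified at `2`
  have h2m : ¬ 2 ∣ m := fun h => (hm 2 Nat.prime_two h).1 (by push_cast; exact Dvd.intro _ rfl)
  obtain ⟨v2, hv2⟩ := Pool.Agent.R431.P.exists_place (K := K) Nat.prime_two
  have hun2 := hunr 2 Nat.prime_two h2m v2 hv2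
  have h4 : d % 4 = 1 := Pool.Agent.R431.P.mod_four hv2 hun2 hd hr
  have hdm : ∀ l : ℕ, l.Prime → (l : ℤ) ∣ d → l ∣ m := by
    intro l hl hld
    by_contra hlm
    obtain ⟨v, hv⟩ := Pool.Agent.R431.P.exists_place (K := K) hl
    exact Pool.Agent.R431.P.not_dvd hl hv (hunr l hl hlm v hv) hd hr hld
  have hgood : ∀ l : ℕ, l.Prime → (l : ℤ) ∣ d → ¬ (l : ℤ) ∣ 2 * W.Δ := fun l hl hld =>
    (hm l hl (hdm l hl hld)).1
  have hsq : ∀ l : ℕ, l.Prime → l ∣ d.natAbs → jacobiSym W.Δ l = 1 := by
    intro l hl hld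
    haveI : Fact l.Prime := ⟨hl⟩
    have hld' : (l : ℤ) ∣ d := Int.natCast_dvd.2 hld
    have h1 := hm l hl (hdm l hl hld')
    have hl2 : l ≠ 2 := by
      rintro rfl
      exact h2m (hdm 2 hl hld')
    have hlΔ : ¬ (l : ℤ) ∣ W.Δ := fun h => h1.1 (h.mul_left 2)
    have h3 := Pool.Agent.R431.P.sq_disc W hl2 hlΔ h1.2
    rw [← jacobiSym.legendreSym.to_jacobiSym, legendreSym.eq_one_iff l (by
      rw [Ne, ZMod.intCast_zmod_eq_zero_iff_dvd]
      exact hlΔ)]
    exact h3
  have hrint : IsIntegral ℤ r := by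
    refine ⟨Polynomial.X ^ 2 - Polynomial.C d, Polynomial.monic_X_pow_sub_C d two_ne_zero, ?_⟩
    rw [Polynomial.eval₂_sub, Polynomial.eval₂_pow, Polynomial.eval₂_X, Polynomial.eval₂_C, hr]
    exact sub_self _
  obtain ⟨R₀, hR₀, hRr⟩ : ∃ R₀ : 𝓞 K, R₀ ^ 2 = (d : 𝓞 K) ∧ (R₀ : K) = r := by
    obtain ⟨R₀, h0⟩ := (IsIntegralClosure.isIntegral_iff (A := 𝓞 K)).1 hrint
    refine ⟨R₀, FaithfulSMul.algebraMap_injective (𝓞 K) K ?_, h0⟩
    rw [map_pow, map_intCast, h0]
    exact hr
  -- the infinite places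
  obtain ⟨ι⟩ : Nonempty (K →+* ℂ) := inferInstance
  obtain ⟨c, hc⟩ := Pool.Agent.R431.P.exists_conj ι
  have hinf : ((-1 : ℤ)) ^ (Module.finrank ℚ k + Fintype.card (InfinitePlace k)) = d.sign := by
    rw [← Pool.Agent.R431.P.sign_conj k ι hc]
    exact Pool.Agent.R431.P.at_conj ι hc _ hd.ne_zero hr hσ
  have hX11 : W = X011 → ∀ w : ℕ → ℤ, w 11 = -1 → root W w k = 1 := by
    rintro rfl w hw
    have e1 : X011.Δ.natAbs.primeFactors = {11} := by
      have e2 : X011.Δ.natAbs = 11 ^ 5 := by decide +kernel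
      rw [e2, Nat.primeFactors_prime_pow (by norm_num) (by norm_num)]
    have h11 : ¬ (11 : ℤ) ∣ d := fun h => hgood 11 (by norm_num) (by exact_mod_cast h) (by
      decide +kernel)
    have h11m : ¬ 11 ∣ m := fun h => (hm 11 (by norm_num) h).1 (by decide +kernel)
    have e3 : ∀ l : ℕ, l.Prime → l ∣ d.natAbs → jacobiSym (-11) l = 1 := by
      intro l hl hld
      have h5 := hsq l hl hld
      have e4 : X011.Δ = (-11) * (11 ^ 2) ^ 2 := by decide +kernel
      have hld' : (l : ℤ) ∣ d := Int.natCast_dvd.2 hld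
      have hl11 : l ≠ 11 := by
        rintro rfl
        exact h11 (by exact_mod_cast hld')
      rw [e4, jacobiSym.mul_left, jacobiSym.pow_left, jacobiSym.sq_one, mul_one] at h5
      · exact h5
      · rw [Int.gcd_eq_natAbs]
        simp only [Int.natAbs_pow, Int.natAbs_natCast]
        refine Nat.Coprime.pow_left 2 ?_
        exact (Nat.coprime_primes (by norm_num) hl).2 hl11.symm
    have e5 := Pool.Agent.R431.P.eleven hd h4 h11 e3
    obtain ⟨v, hv⟩ := Pool.Agent.R431.P.exists_place (K := K) (p := 11) (by norm_num)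
    have hun := hunr 11 (by norm_num) h11m v hv
    obtain ⟨σ, hfr⟩ := Pool.Agent.R431.B.frob_nonempty v
    have e6 := Pool.Agent.R431.P.at_frob (p := 11) (by norm_num) (by norm_num) hv hfr
      (Pool.Agent.R431.P.chi k) (by exact_mod_cast h11) hR₀ (by rw [hRr]; exact hσ)
    rw [Pool.Agent.R431.P.sign_frob k (by norm_num) hv hun hfr, e5, ← hinf] at e6
    have e7 : ((-1 : ℤ)) ^ (Module.finrank ℚ k + places k 11) =
      (-1) ^ (Module.finrank ℚ k + Fintype.card (InfinitePlace k)) := e6
    rw [root, e1, Finset.prod_singleton, hw]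
    rw [pow_add, pow_add] at e7
    rcases neg_one_pow_eq_or ℤ (Module.finrank ℚ k) with h6 | h6 <;> rw [h6] at e7 <;>
      rcases neg_one_pow_eq_or ℤ (Fintype.card (InfinitePlace k)) with h7 | h7 <;>
      rcases neg_one_pow_eq_or ℤ (places k 11) with h8 | h8 <;> rw [h7, h8] at e7 ⊢ <;>
      first
        | rfl
        | exact absurd e7 (by norm_num)
  refine ⟨fun w hw hw11 => ?_, hX11⟩
  rcases hW with hW | ⟨hneg, -, hdeg⟩
  · rw [hX11 hW w (hw11 hW)]
    have e1 : W.Δ.natAbs.primeFactors = {11} := by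
      have e2 : X011.Δ.natAbs = 11 ^ 5 := by decide +kernel
      rw [hW, e2, Nat.primeFactors_prime_pow (by norm_num) (by norm_num)]
    rw [rootQ, e1, Finset.prod_singleton, hw11 hW]
    norm_num
  · have hmem : ∀ p : ℕ, (p : ℤ) ∣ 2 * W.Δ → ∀ v : HeightOneSpectrum (𝓞 K),
        (p : 𝓞 K) ∈ v.asIdeal → (Ideal.absNorm v.asIdeal).Prime := by
      intro p ⟨c, hc⟩ v hv
      refine hdeg v ?_
      rw [hc]
      push_cast
      exact v.asIdeal.mul_mem_right _ hv
    have hodd : ∀ p : ℕ, p.Prime → p ≠ 2 → (p : ℤ) ∣ W.Δ → jacobiSym d p = 1 := by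
      intro p hp hp2 hpΔ
      obtain ⟨v, hv⟩ := Pool.Agent.R431.P.exists_place (K := K) hp
      exact Pool.Agent.R431.P.jac_of_deg hp hp2 hv (hmem p (hpΔ.mul_left 2) v hv)
        (fun h => hgood p hp h (hpΔ.mul_left 2)) hR₀
    have h8 : d % 8 = 1 := Pool.Agent.R431.P.mod_eight hv2 hun2
      (hmem 2 (by push_cast; exact Dvd.intro _ rfl) v2 hv2) h4 hR₀
    have hpos : 0 < d := Pool.Agent.R431.P.pos_of hneg hd h4 (fun _ => h8) hsq hodd
    rw [Int.sign_eq_one_of_pos hpos] at hinf
    have hfin : ∀ p ∈ W.Δ.natAbs.primeFactors, w p ^ places k p = w p ^ Module.finrank ℚ k := by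
      intro p hp
      have hpp := Nat.prime_of_mem_primeFactors hp
      have hpΔ : (p : ℤ) ∣ 2 * W.Δ :=
        (Int.natCast_dvd.2 (Nat.dvd_of_mem_primeFactors hp)).mul_left 2
      have hpm : ¬ p ∣ m := fun h => (hm p hpp h).1 hpΔ
      obtain ⟨v, hv⟩ := Pool.Agent.R431.P.exists_place (K := K) hpp
      obtain ⟨σ, hfr⟩ := Pool.Agent.R431.B.frob_nonempty v
      have hun := hunr p hpp hpm v hv
      have h9 := Pool.Agent.R431.P.sign_frob k hpp hv hun hfr
      rw [Pool.Agent.R431.P.frob_eq_one hpp hv hun (hmem p hpΔ v hv) hfr, map_one] at h9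
      exact parity_mul (hw p) h9.symm
    rw [root, rootQ, Finset.prod_congr rfl hfin, mul_pow, Finset.prod_pow]
    congr 1
    exact parity_mul (Or.inr rfl) hinf

end Pool.Agent.Results.MP_02f36d_nt.SubfieldsOfTwoExt
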